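import Pool.Agent.helper92.FV.Defs2

/-! # MP_51fbee_al, module F1 : the filtration lemma and trivial modules -/

namespace FV

universe u

variable {k : Type u} [Field k]

theorem F1_D_apply {M : DGA k} (G : Twist M) (N : DGMod M) (x : G.I → N.N) (β : G.I) :
    (G.tens N).D x β = sg (G.n β) • N.d (x β) + ∑ α, G.c β α • x α := rfl

theorem F1_mem {M : DGA k} (G : Twist M) (N : DGMod M) (x : G.I → N.N) (n j : ℤ) :
    x ∈ (G.tens N).gr n j ↔ ∀ α, x α ∈ N.gr (n - G.n α) (j - G.j α) := Iff.rfl

theorem F1_aux {M : DGA k} (G : Twist M) (N : DGMod M) (n j : ℤ)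
    (h : ∀ α, N.bdg.Van (n - G.n α) (j - G.j α)) (t : ℕ) :
    ∀ x : G.I → N.N, x ∈ (G.tens N).gr n j → (G.tens N).D x = 0 →
      (∀ α, (t : ℤ) ≤ G.j α → x α = 0) →
      ∃ y : G.I → N.N, y ∈ (G.tens N).gr (n + 1) j ∧ (G.tens N).D y = x := by
  classical
  induction t with
  | zero =>
    intro x _ _ h0
    have hx : x = 0 := by
      funext α
      exact h0 α (by simpa using G.j_nonneg α)
    refine ⟨0, AddSubgroup.zero_mem _, ?_⟩
    rw [hx]
    exact map_zero _
  | succ t ih =>
    intro x hx hDx h0
    have h1 : ∀ α, G.j α = t → N.d (x α) = 0 := by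
      intro α hα
      have h2 : (G.tens N).D x α = 0 := by rw [hDx]; rfl
      rw [F1_D_apply] at h2
      have h3 : ∑ β, G.c α β • x β = 0 := by
        apply Finset.sum_eq_zero
        intro β _
        by_cases hc : G.c α β = 0
        · rw [hc, zero_smul]
        · have := G.c_zero α β hc
          rw [h0 β (by push_cast; omega), smul_zero]
      rw [h3, add_zero] at h2
      have h4 : sg (G.n α) • (sg (G.n α) • N.d (x α)) = 0 := by rw [h2, smul_zero]
      rwa [smul_smul, sg_mul_self, one_smul] at h4
    have h2 : ∀ α, ∃ y, G.j α = t → y ∈ N.gr (n - G.n α + 1) (j - G.j α) ∧ N.d y = x α := by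
      intro α
      by_cases hα : G.j α = t
      · obtain ⟨y, hy, hy'⟩ := h α (x α) (hx α) (h1 α hα)
        exact ⟨y, fun _ => ⟨hy, hy'⟩⟩
      · exact ⟨0, fun h => (hα h).elim⟩
    choose y hy using h2
    set y' : G.I → N.N := fun α => if G.j α = t then sg (G.n α) • y α else 0 with hy'
    have hy'mem : y' ∈ (G.tens N).gr (n + 1) j := by
      rw [F1_mem]
      intro α
      by_cases hα : G.j α = t
      · simp only [hy', if_pos hα]
        have := (hy α hα).1
        rw [show n - G.n α + 1 = n + 1 - G.n α by ring] at this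
        exact AddSubgroup.zsmul_mem _ this _
      · simp only [hy', if_neg hα]
        exact AddSubgroup.zero_mem _
    have hDy' : ∀ β, (t : ℤ) ≤ G.j β → (G.tens N).D y' β = x β := by
      intro β hβ
      rw [F1_D_apply]
      have h3 : ∑ α, G.c β α • y' α = 0 := by
        apply Finset.sum_eq_zero
        intro α _
        by_cases hc : G.c β α = 0
        · rw [hc, zero_smul]
        · have := G.c_zero β α hc
          have hα : G.j α ≠ t := by omega
          simp only [hy', if_neg hα, smul_zero]
      rw [h3, add_zero]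
      by_cases hβ' : G.j β = t
      · simp only [hy', if_pos hβ']
        rw [map_zsmul, smul_smul, sg_mul_self, one_smul, (hy β hβ').2]
      · simp only [hy', if_neg hβ']
        rw [map_zero, smul_zero, h0 β (by push_cast; omega)]
    have hsub : (show (G.tens N).X from x) - (G.tens N).D y' ∈ (G.tens N).gr n j :=
      AddSubgroup.sub_mem _ hx (by
        have := (G.tens N).D_mem hy'mem
        rwa [add_sub_cancel_right] at this)
    have hDsub : (G.tens N).D ((show (G.tens N).X from x) - (G.tens N).D y') = 0 := by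
      rw [map_sub, (G.tens N).D_D y', sub_zero]
      exact hDx
    obtain ⟨z, hz, hDz⟩ := ih ((show (G.tens N).X from x) - (G.tens N).D y') hsub hDsub
      (fun α hα => by
        show x α - (G.tens N).D y' α = 0
        rw [hDy' α hα, sub_self])
    refine ⟨(show (G.tens N).X from y') + (show (G.tens N).X from z),
      AddSubgroup.add_mem _ hy'mem hz, ?_⟩
    have h5 : (G.tens N).D ((show (G.tens N).X from y') + (show (G.tens N).X from z)) =
      (G.tens N).D y' + (G.tens N).D z := map_add _ _ _
    rw [h5, hDz]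
    exact add_sub_cancel _ _

theorem tens_van {M : DGA k} (G : Twist M) (N : DGMod M) (n j : ℤ)
    (h : ∀ α, N.bdg.Van (n - G.n α) (j - G.j α)) : (G.tens N).Van n j := by
  intro x hx hDx
  refine F1_aux G N n j h (Finset.univ.sup (fun α => (G.j α).toNat) + 1) x hx hDx ?_
  intro α hα
  exfalso
  have h1 : (G.j α).toNat ≤ Finset.univ.sup (fun α => (G.j α).toNat) :=
    Finset.le_sup (f := fun α => (G.j α).toNat) (Finset.mem_univ α)
  have h2 := Int.self_le_toNat (G.j α)
  push_cast at hα
  omega

/-- `G ⊗ N` for a module with trivial action and zero differential -/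
theorem tens_triv {M : DGA k} (G : Twist M) (N : DGMod M) (hd : ∀ x, N.d x = 0)
    (ht : ∀ i j, (i, j) ≠ ((0 : ℤ), (0 : ℤ)) → ∀ a ∈ M.gr i j, ∀ x : N.N, a • x = 0) (n b : ℤ) :
    (G.tens N).Van n b ↔ ∀ α, N.gr (n - G.n α) (b - G.j α) = ⊥ := by
  classical
  have hD : ∀ x : G.I → N.N, (G.tens N).D x = 0 := by
    intro x
    funext β
    rw [F1_D_apply, hd, smul_zero, zero_add]
    apply Finset.sum_eq_zero
    intro α _
    by_cases hc : G.c β α = 0
    · rw [hc, zero_smul]
    · have h1 := G.c_zero β α hc
      refine ht _ _ ?_ _ (G.c_mem β α) _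
      intro h2
      rw [Prod.mk.injEq] at h2
      omega
  constructor
  · intro h α
    rw [eq_bot_iff]
    intro z hz
    have hx : (Pi.single α z : G.I → N.N) ∈ (G.tens N).gr n b := by
      rw [F1_mem]
      intro β
      by_cases hβ : β = α
      · subst hβ
        rw [Pi.single_eq_same]; exact hz
      · rw [Pi.single_eq_of_ne hβ]; exact AddSubgroup.zero_mem _
    obtain ⟨y, _, hy⟩ := h (Pi.single α z : G.I → N.N) hx (hD _)
    rw [hD] at hy
    have h3 : (0 : G.I → N.N) α = (Pi.single α z : G.I → N.N) α := congrFun hy α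
    rw [Pi.single_eq_same] at h3
    rw [AddSubgroup.mem_bot]
    exact h3.symm
  · intro h x hx _
    refine ⟨0, AddSubgroup.zero_mem _, ?_⟩
    refine (hD 0).trans ?_
    funext α
    have h1 := hx α
    rw [h α, AddSubgroup.mem_bot] at h1
    exact h1.symm

end FV
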