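import Pool.Agent.helper92.FV.Defs2

/-! # MP_51fbee_al, module RG : ring lemmas -/

namespace FV

universe u

variable {k : Type u} [Field k]

section Ring

variable {R : Type u} [CommRing R] [Algebra k R] {𝒜 : ℕ → Submodule k R} [GradedAlgebra 𝒜]

theorem RG_closure (x : R) (hx : x ∈ Submonoid.closure (𝒜 1 : Set R)) :
    ∃ l : ℕ, x ∈ 𝒜 l ∧ ∀ n, l = n + 1 →
      x ∈ Submodule.span k {x : R | ∃ a ∈ 𝒜 n, ∃ b ∈ 𝒜 1, x = a * b} := by
  induction hx using Submonoid.closure_induction_right with
  | one => exact ⟨0, SetLike.GradedOne.one_mem, fun n h => by omega⟩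
  | mul_right x _ y hy ih =>
    obtain ⟨l, hl, _⟩ := ih
    refine ⟨l + 1, SetLike.GradedMul.mul_mem hl hy, ?_⟩
    intro n hn
    have : l = n := by omega
    subst this
    exact Submodule.subset_span ⟨x, hl, y, hy, rfl⟩

theorem mem_mul_one (h : StdGraded 𝒜) (n : ℕ) (r : R) (hr : r ∈ 𝒜 (n + 1)) :
    r ∈ Submodule.span k {x : R | ∃ a ∈ 𝒜 n, ∃ b ∈ 𝒜 1, x = a * b} := by
  have key : ∀ x ∈ Submodule.span k (Submonoid.closure (𝒜 1 : Set R) : Set R),
      ((DirectSum.decompose 𝒜 x (n + 1) : 𝒜 (n + 1)) : R) ∈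
        Submodule.span k {x : R | ∃ a ∈ 𝒜 n, ∃ b ∈ 𝒜 1, x = a * b} := by
    intro x hx
    induction hx using Submodule.span_induction with
    | mem x hx =>
      obtain ⟨l, hl, hl2⟩ := RG_closure x hx
      by_cases hln : l = n + 1
      · have := hl2 n hln
        subst hln
        rw [DirectSum.decompose_of_mem_same 𝒜 hl]
        exact this
      · rw [DirectSum.decompose_of_mem_ne 𝒜 hl hln]
        exact Submodule.zero_mem _
    | zero => rw [DirectSum.decompose_zero]; exact Submodule.zero_mem _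
    | add x y _ _ hx hy =>
      rw [DirectSum.decompose_add, DirectSum.add_apply, Submodule.coe_add]
      exact Submodule.add_mem _ hx hy
    | smul c x _ hx =>
      rw [DirectSum.decompose_smul]
      exact Submodule.smul_mem _ c hx
  have hr' : r ∈ Submodule.span k (Submonoid.closure (𝒜 1 : Set R) : Set R) := by
    rw [← Algebra.adjoin_eq_span, h.gen]
    trivial
  have h2 := key r hr'
  rwa [DirectSum.decompose_of_mem_same 𝒜 hr] at h2

theorem exists_gens (h : StdGraded 𝒜) : ∃ xs : List R, (∀ x ∈ xs, x ∈ 𝒜 1) ∧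
    Submodule.span k {x | x ∈ xs} = 𝒜 1 ∧ xs.Nodup ∧
    LinearIndependent k (fun x : {x // x ∈ xs} => (x : R)) := by
  classical
  have := h.fin
  let b := Module.finBasis k (𝒜 1)
  have hinj : Function.Injective (fun i => (b i : R)) :=
    Subtype.val_injective.comp b.injective
  have hset : {x : R | x ∈ List.ofFn (fun i => (b i : R))} = Set.range (fun i => (b i : R)) := by
    ext x
    rw [Set.mem_ofPred_eq, List.mem_ofFn']
  refine ⟨List.ofFn (fun i => (b i : R)), ?_, ?_, ?_, ?_⟩
  · intro x hx
    rw [List.mem_ofFn'] at hx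
    obtain ⟨i, rfl⟩ := hx
    exact (b i).2
  · rw [hset]
    have h1 : Set.range (fun i => (b i : R)) = (𝒜 1).subtype '' (Set.range b) := by
      rw [← Set.range_comp]; rfl
    rw [h1, Submodule.span_image, b.span_eq, Submodule.map_top, Submodule.range_subtype]
  · exact List.nodup_ofFn.2 hinj
  · have h1 : LinearIndependent k (fun i => (b i : R)) :=
      b.linearIndependent.map' (𝒜 1).subtype (Submodule.ker_subtype _)
    have h2 := h1.linearIndepOn_id
    have h3 : LinearIndepOn k id {x : R | x ∈ List.ofFn (fun i => (b i : R))} := by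
      rw [hset]; exact h2
    exact h3

end Ring

end FV
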