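import Pool.Agent.helper92.FV.Defs2

/-! # MP_51fbee_al, module TW : existence of the semifree resolution of `k` -/

namespace FV

universe u

variable {k : Type u} [Field k]

/-- representatives of a basis of `Z / B` -/
theorem TW_basis {V : Type u} [AddCommGroup V] [Module k V] (B Z : Submodule k V)
    [Module.Finite k Z] : ∃ (d : ℕ) (z : Fin d → V), (∀ i, z i ∈ Z) ∧
      (∀ t : Fin d → k, ∑ i, t i • z i ∈ B → t = 0) ∧
      (∀ x ∈ Z, ∃ t : Fin d → k, x - ∑ i, t i • z i ∈ B) := by
  classical
  let b := Module.finBasis k (Z ⧸ B.comap Z.subtype)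
  have hlift : ∀ i, ∃ y : Z, Submodule.Quotient.mk y = b i := fun i =>
    Submodule.Quotient.mk_surjective _ (b i)
  choose y hy using hlift
  refine ⟨_, fun i => (y i : V), fun i => (y i).2, ?_, ?_⟩
  · intro t ht
    have h1 : (∑ i, t i • y i : Z) ∈ B.comap Z.subtype := by
      rw [Submodule.mem_comap]
      simpa using ht
    have h2 : (Submodule.Quotient.mk (∑ i, t i • y i) : Z ⧸ B.comap Z.subtype) = 0 :=
      (Submodule.Quotient.mk_eq_zero _).2 h1
    have h3 : (Submodule.Quotient.mk (∑ i, t i • y i) : Z ⧸ B.comap Z.subtype) =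
        ∑ i, t i • b i := by
      rw [← Submodule.mkQ_apply, map_sum]
      apply Finset.sum_congr rfl
      intro i _
      rw [map_smul, Submodule.mkQ_apply, hy]
    rw [h3] at h2
    funext i
    exact Fintype.linearIndependent_iff.1 b.linearIndependent t h2 i
  · intro x hx
    refine ⟨fun i => b.repr (Submodule.Quotient.mk ⟨x, hx⟩) i, ?_⟩
    have h1 : (Submodule.Quotient.mk ((⟨x, hx⟩ : Z) -
        ∑ i, (b.repr (Submodule.Quotient.mk ⟨x, hx⟩) i) • y i) : Z ⧸ B.comap Z.subtype) = 0 := by
      rw [Submodule.Quotient.mk_sub]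
      have h2 : (Submodule.Quotient.mk (∑ i, (b.repr (Submodule.Quotient.mk ⟨x, hx⟩) i) • y i) :
          Z ⧸ B.comap Z.subtype) = Submodule.Quotient.mk ⟨x, hx⟩ := by
        conv_rhs => rw [← b.sum_repr (Submodule.Quotient.mk (⟨x, hx⟩ : Z))]
        rw [← Submodule.mkQ_apply, map_sum]
        apply Finset.sum_congr rfl
        intro i _
        rw [map_smul, Submodule.mkQ_apply, hy]
      rw [h2, sub_self]
    have h3 := (Submodule.Quotient.mk_eq_zero _).1 h1
    rw [Submodule.mem_comap] at h3
    simpa using h3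

/-- the differential of `G ⊗ M` as a linear map -/
def TW_D {M : DGA k} (G : Twist M) : (G.I → M.A) →ₗ[k] (G.I → M.A) where
  toFun x β := sg (G.n β) • M.d (x β) + ∑ α, G.c β α * x α
  map_add' x y := by
    funext β
    simp only [Pi.add_apply, map_add, smul_add, mul_add, Finset.sum_add_distrib]
    abel
  map_smul' c x := by
    funext β
    simp only [Pi.smul_apply, map_smul, RingHom.id_apply, smul_add, Finset.smul_sum,
      mul_smul_comm]
    rw [smul_comm]

theorem TW_D_eq {M : DGA k} (G : Twist M) (x : G.I → M.A) :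
    (G.tens (DGMod.self M)).D x = TW_D G x := rfl

/-- the pieces of `G ⊗ M` -/
def TW_gr {M : DGA k} (G : Twist M) (n j : ℤ) : Submodule k (G.I → M.A) :=
  Submodule.pi Set.univ (fun α => M.gr (n - G.n α) (j - G.j α))

theorem TW_gr_iff {M : DGA k} (G : Twist M) (n j : ℤ) (x : G.I → M.A) :
    x ∈ TW_gr G n j ↔ ∀ α, x α ∈ M.gr (n - G.n α) (j - G.j α) := by
  unfold TW_gr
  rw [Submodule.mem_pi]
  simp

theorem TW_gr_fin {M : DGA k} (hM : M.Conn) (G : Twist M) (n j : ℤ) :
    Module.Finite k (TW_gr G n j) := by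
  classical
  have : ∀ α, Module.Finite k (M.gr (n - G.n α) (j - G.j α)) := fun α => hM.fin _ _
  let φ : (∀ α, M.gr (n - G.n α) (j - G.j α)) →ₗ[k] (G.I → M.A) :=
    LinearMap.pi (fun α => (M.gr (n - G.n α) (j - G.j α)).subtype ∘ₗ LinearMap.proj α)
  have h1 : TW_gr G n j = LinearMap.range φ := by
    ext x
    rw [TW_gr_iff, LinearMap.mem_range]
    constructor
    · intro h
      exact ⟨fun α => ⟨x α, h α⟩, rfl⟩
    · rintro ⟨y, rfl⟩ α
      exact (y α).2
  rw [h1]
  infer_instance

theorem TW_D_mem {M : DGA k} (G : Twist M) {n j : ℤ} {x : G.I → M.A} (hx : x ∈ TW_gr G n j) :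
    TW_D G x ∈ TW_gr G (n - 1) j := by
  rw [TW_gr_iff] at hx ⊢
  exact (G.tens (DGMod.self M)).D_mem (x := x) hx

/-- killing representatives of the homology in internal degree `J` -/
theorem TW_choice {M : DGA k} (hM : M.Conn) (G : Twist M) (n J : ℤ) :
    ∃ (d : ℕ) (z : Fin d → G.I → M.A), (∀ i, z i ∈ TW_gr G n J) ∧ (∀ i, TW_D G (z i) = 0) ∧
      (∀ t : Fin d → k, ∀ y ∈ TW_gr G (n + 1) J, ∑ i, t i • z i = TW_D G y → t = 0) ∧
      (∀ x ∈ TW_gr G n J, TW_D G x = 0 → ∃ t : Fin d → k, ∃ y ∈ TW_gr G (n + 1) J,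
        x = TW_D G y + ∑ i, t i • z i) := by
  have hfin := TW_gr_fin hM G n J
  have hfin' : Module.Finite k (TW_gr G n J ⊓ LinearMap.ker (TW_D G) : Submodule k _) :=
    Submodule.finiteDimensional_inf_left _ _
  obtain ⟨d, z, h1, h2, h3⟩ := TW_basis (Submodule.map (TW_D G) (TW_gr G (n + 1) J))
    (TW_gr G n J ⊓ LinearMap.ker (TW_D G))
  refine ⟨d, z, fun i => (h1 i).1, fun i => LinearMap.mem_ker.1 (h1 i).2, ?_, ?_⟩
  · intro t y hy he
    exact h2 t (by rw [he]; exact Submodule.mem_map_of_mem hy)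
  · intro x hx hDx
    obtain ⟨t, ht⟩ := h3 x ⟨hx, LinearMap.mem_ker.2 hDx⟩
    obtain ⟨y, hy, hye⟩ := Submodule.mem_map.1 ht
    exact ⟨t, y, hy, by rw [hye]; abel⟩

/-- adjoining basis elements -/
def TW_ext {M : DGA k} (G : Twist M) (J : ℤ) (hJ : 0 ≤ J) (hGJ : ∀ α, G.j α < J)
    {K : ℕ} (d : Fin K → ℕ) (z : ∀ n : Fin K, Fin (d n) → G.I → M.A)
    (h1 : ∀ (n : Fin K) i, z n i ∈ TW_gr G ((n : ℕ) : ℤ) J) (h2 : ∀ n i, TW_D G (z n i) = 0) : Twist M where
  I := G.I ⊕ (Σ n : Fin K, Fin (d n))
  n := Sum.elim G.n (fun e => ((e.1 : ℕ) : ℤ) + 1)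
  j := Sum.elim G.j (fun _ => J)
  n_nonneg := by
    rintro (α | e)
    · exact G.n_nonneg α
    · simp only [Sum.elim_inr]; positivity
  j_nonneg := by
    rintro (α | e)
    · exact G.j_nonneg α
    · exact hJ
  c := fun β α => match β, α with
    | Sum.inl β, Sum.inl α => G.c β α
    | Sum.inl β, Sum.inr e => z e.1 e.2 β
    | Sum.inr _, _ => 0
  c_mem := by
    rintro (β | f) (α | e)
    · exact G.c_mem β α
    · have := (TW_gr_iff G _ _ _).1 (h1 e.1 e.2) β
      simp only [Sum.elim_inl, Sum.elim_inr]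
      rw [show ((e.1 : ℕ) : ℤ) + 1 - G.n β - 1 = ((e.1 : ℕ) : ℤ) - G.n β by ring]
      exact this
    · exact Submodule.zero_mem _
    · exact Submodule.zero_mem _
  c_zero := by
    rintro (β | f) (α | e) h
    · exact G.c_zero β α h
    · exact hGJ β
    · exact (h rfl).elim
    · exact (h rfl).elim
  mc := by
    rintro (γ | g) (α | e)
    · rw [Fintype.sum_sum_type]
      simp only [mul_zero, Finset.sum_const_zero, add_zero, Sum.elim_inl]
      exact G.mc γ α
    · rw [Fintype.sum_sum_type]
      simp only [mul_zero, Finset.sum_const_zero, add_zero, Sum.elim_inl]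
      have := congrFun (h2 e.1 e.2) γ
      have h3 : sg (G.n γ) • M.d (z e.1 e.2 γ) + ∑ α, G.c γ α * z e.1 e.2 α = 0 := this
      rw [add_comm]
      exact h3
    · simp
    · simp

theorem TW_ext_D_inl {M : DGA k} (G : Twist M) (J : ℤ) (hJ : 0 ≤ J) (hGJ : ∀ α, G.j α < J)
    {K : ℕ} (d : Fin K → ℕ) (z : ∀ n : Fin K, Fin (d n) → G.I → M.A)
    (h1 : ∀ (n : Fin K) i, z n i ∈ TW_gr G ((n : ℕ) : ℤ) J) (h2 : ∀ n i, TW_D G (z n i) = 0)
    (x : (TW_ext G J hJ hGJ d z h1 h2).I → M.A) (β : G.I) :
    TW_D (TW_ext G J hJ hGJ d z h1 h2) x (Sum.inl β) =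
      TW_D G (fun α => x (Sum.inl α)) β + ∑ n, ∑ i, z n i β * x (Sum.inr ⟨n, i⟩) := by
  have e1 : TW_D (TW_ext G J hJ hGJ d z h1 h2) x (Sum.inl β) =
      sg (G.n β) • M.d (x (Sum.inl β)) +
        ∑ α, (TW_ext G J hJ hGJ d z h1 h2).c (Sum.inl β) α * x α := rfl
  have e2 : ∑ α, (TW_ext G J hJ hGJ d z h1 h2).c (Sum.inl β) α * x α =
      ∑ α : G.I, G.c β α * x (Sum.inl α) +
        ∑ e : (Σ n : Fin K, Fin (d n)), z e.1 e.2 β * x (Sum.inr e) :=
    Fintype.sum_sum_type _
  have e3 : TW_D G (fun α => x (Sum.inl α)) β =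
      sg (G.n β) • M.d (x (Sum.inl β)) + ∑ α : G.I, G.c β α * x (Sum.inl α) := rfl
  rw [e1, e2, e3, Fintype.sum_sigma]
  abel

theorem TW_ext_D_inr {M : DGA k} (G : Twist M) (J : ℤ) (hJ : 0 ≤ J) (hGJ : ∀ α, G.j α < J)
    {K : ℕ} (d : Fin K → ℕ) (z : ∀ n : Fin K, Fin (d n) → G.I → M.A)
    (h1 : ∀ (n : Fin K) i, z n i ∈ TW_gr G ((n : ℕ) : ℤ) J) (h2 : ∀ n i, TW_D G (z n i) = 0)
    (x : (TW_ext G J hJ hGJ d z h1 h2).I → M.A) (e : Σ n : Fin K, Fin (d n)) :
    TW_D (TW_ext G J hJ hGJ d z h1 h2) x (Sum.inr e) =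
      sg (((e.1 : ℕ) : ℤ) + 1) • M.d (x (Sum.inr e)) := by
  have e1 : TW_D (TW_ext G J hJ hGJ d z h1 h2) x (Sum.inr e) =
      sg (((e.1 : ℕ) : ℤ) + 1) • M.d (x (Sum.inr e)) +
        ∑ α : (TW_ext G J hJ hGJ d z h1 h2).I, (0 : M.A) * x α := rfl
  rw [e1]
  simp

/-- the pieces of `M` outside the cone vanish -/
theorem TW_zero {M : DGA k} (hM : M.Conn) {n m : ℤ} {x : M.A} (hx : x ∈ M.gr n m)
    (h : ¬ (n = 0 ∧ m = 0)) (h' : ¬ (0 ≤ n ∧ n < m)) : x = 0 := by
  by_contra hne
  rcases hM.cone n m x hx hne with h1 | h1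
  · exact h h1
  · exact h' h1

theorem TW_main (M : DGA k) (hM : M.Conn) (J : ℕ) :
    ∃ G : Twist M, G.IsRes J ∧ ∀ α, G.j α ≤ J := by
  induction J with
  | zero =>
    refine ⟨{ I := Unit, n := fun _ => 0, j := fun _ => 0, n_nonneg := fun _ => le_refl _,
              j_nonneg := fun _ => le_refl _, c := fun _ _ => 0,
              c_mem := fun _ _ => Submodule.zero_mem _,
              c_zero := fun _ _ h => (h rfl).elim, mc := fun _ _ => by simp }, ⟨?_, ?_⟩, ?_⟩
    · exact ⟨(), rfl, rfl, fun α hα => (hα rfl).elim⟩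
    · intro n j hj hnj x hx _
      have hx0 : x = 0 := by
        funext α
        have h1 : x α ∈ M.gr (n - 0) (j - 0) := hx α
        rw [sub_zero, sub_zero] at h1
        apply TW_zero hM h1
        · intro h2
          apply hnj
          rw [h2.1, h2.2]
        · push_cast at hj
          omega
      refine ⟨0, AddSubgroup.zero_mem _, ?_⟩
      rw [hx0]
      exact map_zero _
    · intro α
      exact le_refl _
  | succ J ih =>
    obtain ⟨G, hG, hGJ⟩ := ih
    obtain ⟨⟨o, ho1, ho2, ho3⟩, hvan⟩ := hG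
    have hch := fun n : Fin (J + 1) => TW_choice hM G ((n : ℕ) : ℤ) ((J + 1 : ℕ) : ℤ)
    choose d z h1 h2 h3 h4 using hch
    have hJ0 : (0 : ℤ) ≤ ((J + 1 : ℕ) : ℤ) := by positivity
    have hGJ' : ∀ α, G.j α < ((J + 1 : ℕ) : ℤ) := fun α => by
      have := hGJ α
      push_cast; omega
    set G' := TW_ext G ((J + 1 : ℕ) : ℤ) hJ0 hGJ' d z h1 h2 with hG'
    have hnj : ∀ α, G.n α ≤ G.j α := by
      intro α
      by_cases h : α = o
      · rw [h, ho1, ho2]
      · exact (ho3 α h).2
    refine ⟨G', ⟨⟨Sum.inl o, ho1, ho2, ?_⟩, ?_⟩, ?_⟩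
    · rintro (α | e) hα
      · exact ho3 α (fun h => hα (by rw [h]))
      · have h5 := e.1.2
        constructor
        · show (1 : ℤ) ≤ ((e.1 : ℕ) : ℤ) + 1
          omega
        · show ((e.1 : ℕ) : ℤ) + 1 ≤ ((J + 1 : ℕ) : ℤ)
          omega
    · intro n j hj hne x₀ hx hDx
      obtain ⟨x, hxx⟩ : ∃ x : G'.I → M.A, x = x₀ := ⟨x₀, rfl⟩
      subst hxx
      -- the coordinates
      have hDx' : TW_D G' x = 0 := hDx
      have hxI : ∀ α : G.I, x (Sum.inl α) ∈ M.gr (n - G.n α) (j - G.j α) := fun α => hx (Sum.inl α)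
      have hxE : ∀ e : (Σ n : Fin (J + 1), Fin (d n)), x (Sum.inr e) ∈
          M.gr (n - (((e.1 : ℕ) : ℤ) + 1)) (j - ((J + 1 : ℕ) : ℤ)) := fun e => hx (Sum.inr e)
      have hxI' : (fun α => x (Sum.inl α)) ∈ TW_gr G n j := (TW_gr_iff G _ _ _).2 hxI
      -- it is enough that the new coordinates vanish and that the old ones are a boundary
      have hfin : ∀ (yI : G.I → M.A) (t : ∀ m : Fin (J + 1), Fin (d m) → k),
          yI ∈ TW_gr G (n + 1) j →
          (∀ m i, t m i ≠ 0 → ((m : ℕ) : ℤ) = n ∧ j = ((J + 1 : ℕ) : ℤ)) →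
          (∀ e, x (Sum.inr e) = 0) →
          (fun α => x (Sum.inl α)) = TW_D G yI + ∑ m, ∑ i, t m i • z m i →
          ∃ y ∈ (G'.tens (DGMod.self M)).gr (n + 1) j, (G'.tens (DGMod.self M)).D y = x := by
        intro yI t hyI ht hx0 hxy
        let y : G'.I → M.A := Sum.elim yI (fun e => algebraMap k M.A (t e.1 e.2))
        refine ⟨y, ?_, ?_⟩
        · rintro (α | e)
          · exact (TW_gr_iff G _ _ _).1 hyI α
          · show algebraMap k M.A (t e.1 e.2) ∈
              M.gr (n + 1 - (((e.1 : ℕ) : ℤ) + 1)) (j - ((J + 1 : ℕ) : ℤ))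
            by_cases hte : t e.1 e.2 = 0
            · rw [hte, map_zero]; exact Submodule.zero_mem _
            · obtain ⟨h5, h6⟩ := ht e.1 e.2 hte
              rw [h5, h6, show n + 1 - (n + 1) = 0 by ring, sub_self, Algebra.algebraMap_eq_smul_one]
              exact Submodule.smul_mem _ _ M.one_mem
        · show TW_D G' y = x
          funext γ
          rcases γ with γ | g
          · rw [TW_ext_D_inl]
            have h5 := congrFun hxy γ
            have h6 : x (Sum.inl γ) = (TW_D G yI + ∑ m, ∑ i, t m i • z m i) γ := h5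
            rw [h6, Pi.add_apply, Finset.sum_apply]
            congr 1
            apply Finset.sum_congr rfl
            intro m _
            rw [Finset.sum_apply]
            apply Finset.sum_congr rfl
            intro i _
            show z m i γ * algebraMap k M.A (t m i) = t m i • z m i γ
            rw [← Algebra.commutes, Algebra.smul_def]
          · rw [TW_ext_D_inr, hx0]
            show sg _ • M.d (algebraMap k M.A (t g.1 g.2)) = 0
            rw [Algebra.algebraMap_eq_smul_one, map_smul, M.d_one, smul_zero, smul_zero]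
      by_cases hjJ : j = ((J + 1 : ℕ) : ℤ)
      · -- top degree
        subst hjJ
        have hsc : ∀ e : (Σ n : Fin (J + 1), Fin (d n)), ∃ s : k,
            x (Sum.inr e) = algebraMap k M.A s ∧ (n ≠ ((e.1 : ℕ) : ℤ) + 1 → s = 0) := by
          intro e
          have h5 := hxE e
          rw [sub_self] at h5
          by_cases h6 : n = ((e.1 : ℕ) : ℤ) + 1
          · rw [h6, sub_self] at h5
            obtain ⟨c, hc⟩ := hM.zero _ h5
            exact ⟨c, hc, fun h => (h h6).elim⟩
          · refine ⟨0, ?_, fun _ => rfl⟩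
            rw [map_zero]
            apply TW_zero hM h5
            · intro h7; apply h6; omega
            · omega
        choose s hs1 hs2 using hsc
        have hsum : TW_D G (fun α => x (Sum.inl α)) +
            ∑ m, ∑ i, s ⟨m, i⟩ • z m i = 0 := by
          funext γ
          have h5 := congrFun hDx' (Sum.inl γ)
          rw [TW_ext_D_inl] at h5
          have h6 : (TW_D G (fun α => x (Sum.inl α)) + ∑ m, ∑ i, s ⟨m, i⟩ • z m i) γ =
              TW_D G (fun α => x (Sum.inl α)) γ + ∑ m, ∑ i, z m i γ * x (Sum.inr ⟨m, i⟩) := by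
            rw [Pi.add_apply, Finset.sum_apply]
            congr 1
            apply Finset.sum_congr rfl
            intro m _
            rw [Finset.sum_apply]
            apply Finset.sum_congr rfl
            intro i _
            rw [hs1, Pi.smul_apply, ← Algebra.commutes, Algebra.smul_def]
          rw [h6]
          exact h5
        -- all `s` vanish
        have hs0 : ∀ m i, s ⟨m, i⟩ = 0 := by
          intro m i
          by_cases h5 : n = ((m : ℕ) : ℤ) + 1
          · have h6 : ∑ m', ∑ i, s ⟨m', i⟩ • z m' i = ∑ i, s ⟨m, i⟩ • z m i := by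
              apply Finset.sum_eq_single m
              · intro m' _ hm'
                apply Finset.sum_eq_zero
                intro i _
                rw [hs2 ⟨m', i⟩ (by
                  intro h7
                  apply hm'
                  apply Fin.ext
                  have h8 : n = ((m' : ℕ) : ℤ) + 1 := h7
                  omega), zero_smul]
              · intro h; exact (h (Finset.mem_univ _)).elim
            rw [h6] at hsum
            have h7 : ∑ i, s ⟨m, i⟩ • z m i = TW_D G (-(fun α => x (Sum.inl α))) := by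
              rw [map_neg]
              exact eq_neg_of_add_eq_zero_right hsum
            have h8 := h3 m (fun i => s ⟨m, i⟩) (-(fun α => x (Sum.inl α))) (by
              rw [← h5]; exact Submodule.neg_mem _ hxI') h7
            exact congrFun h8 i
          · exact hs2 ⟨m, i⟩ h5
        have hx0 : ∀ e, x (Sum.inr e) = 0 := by
          intro e
          rw [hs1 e]
          have : s e = 0 := hs0 e.1 e.2
          rw [this, map_zero]
        have hDI : TW_D G (fun α => x (Sum.inl α)) = 0 := by
          have h5 : ∑ m, ∑ i, s ⟨m, i⟩ • z m i = 0 := by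
            apply Finset.sum_eq_zero
            intro m _
            apply Finset.sum_eq_zero
            intro i _
            rw [hs0 m i, zero_smul]
          rw [h5, add_zero] at hsum
          exact hsum
        by_cases hn : 0 ≤ n ∧ n ≤ J
        · obtain ⟨n0, rfl⟩ := Int.eq_ofNat_of_zero_le hn.1
          have hn0 : n0 < J + 1 := by
            have : (n0 : ℤ) ≤ J := hn.2
            omega
          obtain ⟨t, y, hy, hty⟩ := h4 ⟨n0, hn0⟩ (fun α => x (Sum.inl α)) hxI' hDI
          refine hfin y (fun m i => if h : m = ⟨n0, hn0⟩ then t (h ▸ i) else 0) hy ?_ hx0 ?_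
          · intro m i hmi
            by_cases h : m = ⟨n0, hn0⟩
            · rw [h]; exact ⟨rfl, rfl⟩
            · simp only [dif_neg h] at hmi
              exact (hmi rfl).elim
          · rw [hty]
            congr 1
            symm
            rw [Finset.sum_eq_single (⟨n0, hn0⟩ : Fin (J + 1))]
            · apply Finset.sum_congr rfl
              intro i _
              simp
            · intro m _ hm
              apply Finset.sum_eq_zero
              intro i _
              simp only [dif_neg hm, zero_smul]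
            · intro h; exact (h (Finset.mem_univ _)).elim
        · have hxI0 : (fun α => x (Sum.inl α)) = 0 := by
            funext α
            have h5 := hnj α
            have h6 := hGJ α
            have h7 := G.n_nonneg α
            apply TW_zero hM (hxI α)
            · push_cast; omega
            · push_cast; omega
          refine hfin 0 (fun _ _ => 0) (Submodule.zero_mem _) (fun m i h => (h rfl).elim) hx0 ?_
          rw [hxI0]
          simp
      · -- lower degrees
        have hj' : j < ((J + 1 : ℕ) : ℤ) := lt_of_le_of_ne hj hjJ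
        have hx0 : ∀ e, x (Sum.inr e) = 0 := fun e => M.neg_right (by omega) (hxE e)
        have hDI : TW_D G (fun α => x (Sum.inl α)) = 0 := by
          funext γ
          have h5 := congrFun hDx' (Sum.inl γ)
          rw [TW_ext_D_inl] at h5
          have h6 : ∑ m, ∑ i, z m i γ * x (Sum.inr ⟨m, i⟩) = 0 := by
            apply Finset.sum_eq_zero
            intro m _
            apply Finset.sum_eq_zero
            intro i _
            rw [hx0, mul_zero]
          rw [h6, add_zero] at h5
          exact h5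
        obtain ⟨y, hy, hyD⟩ := hvan n j (by push_cast at hj'; omega) hne
          (fun α => x (Sum.inl α)) hxI hDI
        refine hfin y (fun _ _ => 0) ((TW_gr_iff G _ _ _).2 hy) (fun m i h => (h rfl).elim) hx0 ?_
        have h7 : TW_D G y = fun α => x (Sum.inl α) := hyD
        rw [h7]
        simp
    · rintro (α | e)
      · exact (hGJ' α).le
      · exact le_refl _

theorem exists_twist (M : DGA k) (hM : M.Conn) (J : ℤ) (hJ : 0 ≤ J) :
    ∃ G : Twist M, G.IsRes J := by
  obtain ⟨J', rfl⟩ := Int.eq_ofNat_of_zero_le hJ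
  obtain ⟨G, hG, _⟩ := TW_main M hM J'
  exact ⟨G, hG⟩

end FV
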